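import Pool.Agent.Helper71.HV.Sub
import Pool.Agent.Helper53.LN.VIR

/-! Row VL of the sheet HV (part of V2R). -/

set_option autoImplicit false

namespace Pool.Agent.Helper56.HV

open MeasureTheory Filter Pool.Agent.Helper95.PW Pool.Agent.Helper95.LN Pool.Agent.Helper95.CF
open Pool.Agent.Helper95.HV Pool.Agent.Helper71.HV Pool.Agent.Helper53.LN

theorem vl_pd (g : R3 → ℝ) (i : Fin 3) : pd i (fun y => -(g y)) = fun y => -(pd i g y) := by
  funext y
  unfold pd
  rw [fderiv_fun_neg]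
  rfl

theorem vl_vir {n M : ℕ} (X : Fin M → R3) (Z : Fin M → ℝ) (g : R3 → ℝ) (x : Cf n) :
    Vir X Z g x = -Vir X Z (fun y => -(g y)) x := by
  unfold Vir
  simp only [vl_pd]
  have e1 : ∀ k l : Fin n, (if k < l then (∑ m, (-pd m g (x k) - -pd m g (x l)) *
      (x k m - x l m)) / nr (x k - x l) ^ 3 else 0) =
      -(if k < l then (∑ m, (pd m g (x k) - pd m g (x l)) * (x k m - x l m)) /
        nr (x k - x l) ^ 3 else 0) := by
    intro k l
    split_ifs
    · rw [← neg_div, ← Finset.sum_neg_distrib]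
      congr 1
      exact Finset.sum_congr rfl fun m _ => by ring
    · simp
  have e2 : ∀ (k : Fin n) (j : Fin M), Z j * ((∑ m, -pd m g (x k) * (x k m - X j m)) /
      nr (x k - X j) ^ 3) = -(Z j * ((∑ m, pd m g (x k) * (x k m - X j m)) /
        nr (x k - X j) ^ 3)) := by
    intro k j
    rw [← mul_neg, ← neg_div, ← Finset.sum_neg_distrib]
    congr 2
    exact Finset.sum_congr rfl fun m _ => by ring
  simp only [e1, e2, Finset.sum_neg_distrib]
  ring

theorem VL (h1 : ST_NBZ) (h2 : ST_FFZ) (h3 : ST_KK) : ST_VL := by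
  intro d hd hd1 A hA
  obtain ⟨C2, hC2, k2⟩ := h1 d hd hd1
  obtain ⟨C3, hC3, k3⟩ := h2 d hd hd1
  obtain ⟨B, hB⟩ : ∃ B : ℝ, B = 3 * A := ⟨_, rfl⟩
  have hB1 : 1 ≤ B := by rw [hB]; linarith
  have hAB : A ≤ B := by rw [hB]; linarith
  have hB0 : 0 ≤ B := by linarith
  obtain ⟨P, hP⟩ : ∃ P : ℝ, P = B + B * (16 / d) * C2 + 3 / 2 * B * (C3 + C2) +
      192 * A / d ^ 2 := ⟨_, rfl⟩
  have hA0 : 0 ≤ A := by linarith
  have hP0 : 0 < P := by rw [hP]; positivity
  refine ⟨P, hP0, ?_⟩
  intro z n M X Z g x hDt hg hout hA1 hA2 hin hD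
  have hS := hDt.sep
  have hz0 : 0 ≤ z := by linarith [hDt.z1]
  have q2 := k2 z n M X Z x hDt
  obtain ⟨e, he, q3⟩ := k3 z n M X Z x hDt
  obtain ⟨ng, hng⟩ : ∃ ng : R3 → ℝ, ng = fun y => -(g y) := ⟨_, rfl⟩
  have hpd : ∀ i, pd i ng = fun y => -(pd i g y) := fun i => by rw [hng]; exact vl_pd g i
  have hngs : ContDiff ℝ (⊤ : ℕ∞) ng := by rw [hng]; exact hg.neg
  have hnout : ∀ i y, (∀ j, d ≤ nr (y - X j)) → pd i ng y = 0 := fun i y hy => by
    rw [hpd]
    show -(pd i g y) = 0
    rw [hout i y hy, neg_zero]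
  have hn1 : ∀ i y, |pd i ng y| ≤ B := fun i y => by
    rw [hpd]
    show |-(pd i g y)| ≤ B
    rw [abs_neg]
    exact (hA1 i y).trans hAB
  have hH : ∀ (y : R3) (ξ : Fin 3 → ℝ),
      -(B * ∑ i, ξ i ^ 2) ≤ ∑ i, ∑ l, pd i (pd l ng) y * ξ i * ξ l := by
    intro y ξ
    have e1 : ∀ i l, pd i (pd l ng) y = -(pd i (pd l g) y) := fun i l => by
      rw [hpd l, vl_pd]
    simp only [e1]
    have e2 : ∀ i l, -(A * ((ξ i ^ 2 + ξ l ^ 2) / 2)) ≤ -(pd i (pd l g) y) * ξ i * ξ l := by
      intro i l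
      have h4 := hA2 i l y
      have h5 : |pd i (pd l g) y * (ξ i * ξ l)| ≤ A * ((ξ i ^ 2 + ξ l ^ 2) / 2) := by
        rw [abs_mul]
        apply mul_le_mul h4 _ (abs_nonneg _) hA0
        rw [abs_le]
        constructor
        · nlinarith [sq_nonneg (ξ i + ξ l)]
        · nlinarith [sq_nonneg (ξ i - ξ l)]
      have h6 := (abs_le.1 h5).2
      have h7 : -(pd i (pd l g) y) * ξ i * ξ l = -(pd i (pd l g) y * (ξ i * ξ l)) := by ring
      rw [h7]
      linarith
    have e3 : ∑ i, ∑ l, -(A * ((ξ i ^ 2 + ξ l ^ 2) / 2)) = -(B * ∑ i, ξ i ^ 2) := by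
      rw [hB]
      simp only [Fin.sum_univ_three]
      ring
    rw [← e3]
    exact Finset.sum_le_sum fun i _ => Finset.sum_le_sum fun l _ => e2 i l
  have b1 := VIR_b1 h3 hd hB1 hS hngs hH hD
  have b2 := VIR_b2 hd hB1 hS Z hnout hn1 x he
  -- the own nucleus
  have b3 : ∑ i, ∑ k, sw X (3 / 2 * d) x i k * (Z i * na X ng x k i) ≤
      192 * A / d ^ 2 * (z * n) := by
    have key : ∀ i k, sw X (3 / 2 * d) x i k * (Z i * na X ng x k i) ≤
        sw X (3 / 2 * d) x i k * (192 * A / d ^ 2 * z) := by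
      intro i k
      apply mul_le_mul_of_nonneg_left _ (sw_nonneg X (3 / 2 * d) x i k)
      have hZ0 := hDt.nuc.1 i
      by_cases h : nr (x k - X i) < d / 8
      · have h4 : na X ng x k i = 0 := by
          unfold na
          have : ∀ m, pd m ng (x k) = 0 := fun m => by
            rw [hpd]
            show -(pd m g (x k)) = 0
            rw [hin i (x k) h m, neg_zero]
          simp [this]
        rw [h4, mul_zero]
        positivity
      · push Not at h
        have hr : 0 < nr (x k - X i) := by linarith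
        have h4 : na X ng x k i ≤ 192 * A / d ^ 2 := by
          unfold na
          rw [div_le_iff₀ (by positivity)]
          have hm : ∀ m, pd m ng (x k) * (x k m - X i m) ≤ A * nr (x k - X i) := by
            intro m
            refine le_trans (le_abs_self _) ?_
            rw [abs_mul, hpd]
            show |-(pd m g (x k))| * |x k m - X i m| ≤ A * nr (x k - X i)
            rw [abs_neg]
            refine mul_le_mul (hA1 _ _) ?_ (abs_nonneg _) hA0
            exact VIR_comp (x k - X i) m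
          have h5 : (d / 8) ^ 2 ≤ nr (x k - X i) ^ 2 := pow_le_pow_left₀ (by positivity) h 2
          have h6 : 3 * A ≤ 192 * A / d ^ 2 * nr (x k - X i) ^ 2 := by
            calc 3 * A = 192 * A / d ^ 2 * (d / 8) ^ 2 := by field_simp; ring
              _ ≤ 192 * A / d ^ 2 * nr (x k - X i) ^ 2 :=
                mul_le_mul_of_nonneg_left h5 (by positivity)
          have h7 := mul_le_mul_of_nonneg_right h6 hr.le
          rw [Fin.sum_univ_three]
          have h8 : 192 * A / d ^ 2 * nr (x k - X i) ^ 3 =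
              192 * A / d ^ 2 * nr (x k - X i) ^ 2 * nr (x k - X i) := by ring
          rw [h8]
          linarith [hm 0, hm 1, hm 2]
        have h9 : 0 ≤ 192 * A / d ^ 2 := by positivity
        calc Z i * na X ng x k i ≤ Z i * (192 * A / d ^ 2) := mul_le_mul_of_nonneg_left h4 hZ0
          _ ≤ z * (192 * A / d ^ 2) := mul_le_mul_of_nonneg_right (hDt.le i) h9
          _ = 192 * A / d ^ 2 * z := mul_comm _ _
    refine (Finset.sum_le_sum fun i _ => Finset.sum_le_sum fun k _ => key i k).trans ?_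
    rw [Finset.sum_comm]
    have h10 : 0 ≤ 192 * A / d ^ 2 * z := by positivity
    calc ∑ k : Fin n, ∑ i, sw X (3 / 2 * d) x i k * (192 * A / d ^ 2 * z) ≤
        ∑ _k : Fin n, 192 * A / d ^ 2 * z := by
          apply Finset.sum_le_sum
          intro k _
          rw [← Finset.sum_mul]
          exact mul_le_of_le_one_left h10 (VIR_le1 hd hS x k)
      _ = 192 * A / d ^ 2 * (z * n) := by
          rw [Finset.sum_const, Finset.card_univ, Fintype.card_fin, nsmul_eq_mul]
          ring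
  rw [vl_vir, ← hng, VIR_id hd hS Z hnout x]
  obtain ⟨R, hR⟩ : ∃ R : ℝ, R = Rem (d / 8) x := ⟨_, rfl⟩
  have hR0 : 0 ≤ R := by
    rw [hR]
    unfold Rem
    refine Finset.sum_nonneg fun k _ => Finset.sum_nonneg fun l _ => ?_
    split_ifs with h
    · have := (h3 (d / 8) (x k - x l) (by positivity)).2.1 (hD.1 k l h.ne)
      linarith
    · exact le_rfl
  obtain ⟨W, hW⟩ : ∃ W : ℝ, W = z ^ 2 * M + Dn (d / 8) X Z x := ⟨_, rfl⟩
  have hW0 : 0 ≤ W := by
    rw [hW]
    have := VIR_Dn (d / 8) X Z x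
    positivity
  have hN0 : 0 ≤ z * ∑ k, near1 X d (x k) := by
    apply mul_nonneg hz0
    refine Finset.sum_nonneg fun k _ => ?_
    unfold near1
    refine Finset.sum_nonneg fun j _ => ?_
    split_ifs
    · have := VIR_nr0 (x k - X j)
      positivity
    · exact le_rfl
  have hn0 : 0 ≤ z * (n : ℝ) := by positivity
  rw [← hW] at q2 q3
  rw [← hR] at b1
  have hLoc : W + R ≤ Loc d z X Z x := by
    unfold Loc
    rw [hW, hR]
    linarith
  have m2 := mul_le_mul_of_nonneg_left q2 (by positivity : 0 ≤ B * (16 / d))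
  have m3 := mul_le_mul_of_nonneg_left (add_le_add q3 q2) (by positivity : 0 ≤ 3 / 2 * B)
  have f1 : P * (Loc d z X Z x + z * n) ≥ P * (W + R + z * n) :=
    mul_le_mul_of_nonneg_left (by linarith) hP0.le
  refine le_trans ?_ f1
  have f2 : P * (W + R + z * n) = (B + B * (16 / d) * C2 + 3 / 2 * B * (C3 + C2) +
      192 * A / d ^ 2) * W + (B + B * (16 / d) * C2 + 3 / 2 * B * (C3 + C2) +
      192 * A / d ^ 2) * R + (B + B * (16 / d) * C2 + 3 / 2 * B * (C3 + C2) +
      192 * A / d ^ 2) * (z * n) := by rw [hP]; ring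
  rw [f2]
  have g1 : B * (16 / d) * (C2 * W) + 3 / 2 * B * (C3 * W + C2 * W) ≤
      (B + B * (16 / d) * C2 + 3 / 2 * B * (C3 + C2) + 192 * A / d ^ 2) * W := by
    have : 0 ≤ (B + 192 * A / d ^ 2) * W := by positivity
    linarith
  have g2 : B * R ≤ (B + B * (16 / d) * C2 + 3 / 2 * B * (C3 + C2) + 192 * A / d ^ 2) * R := by
    have : 0 ≤ (B * (16 / d) * C2 + 3 / 2 * B * (C3 + C2) + 192 * A / d ^ 2) * R := by positivity
    linarith
  have g3 : 192 * A / d ^ 2 * (z * n) ≤
      (B + B * (16 / d) * C2 + 3 / 2 * B * (C3 + C2) + 192 * A / d ^ 2) * (z * n) := by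
    have : 0 ≤ (B + B * (16 / d) * C2 + 3 / 2 * B * (C3 + C2)) * (z * n) := by positivity
    linarith
  have g4 : 0 ≤ B * (16 / d) * (C2 * W) + 3 / 2 * B * (C3 * W + C2 * W) := by positivity
  have g5 : 0 ≤ B * R := by positivity
  have g6 : 0 ≤ 192 * A / d ^ 2 * (z * n) := by positivity
  linarith

end Pool.Agent.Helper56.HV
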